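import Pool.Agent.W197.Num.End

open MeasureTheory

namespace Pool.Agent.Results.MP_7eacff_nt.NumberRigidity

/-- multiplicity of `s` as a zero of the Riemann zeta function (order of vanishing at `s`) -/
noncomputable def zmult (s : ℂ) : ℕ := analyticOrderNatAt riemannZeta s

/-- the number of nontrivial zeros of `ζ` with ordinate in `J`, with multiplicity -/
noncomputable def count (J : Set ℝ) : ℕ :=
  ∑ᶠ s ∈ {s : ℂ | riemannZeta s = 0 ∧ 0 < s.re ∧ s.re < 1 ∧ s.im ∈ J}, zmult s

open Classical in
/-- the logarithmic weight: `1` for `|u| ≤ h`, and `log (hD/|u|) / log D` for `h < |u| ≤ hD` -/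
noncomputable def weight (h D u : ℝ) : ℝ :=
  if |u| ≤ h then 1 else Real.log (h * D / |u|) / Real.log D

/-- weighted sum (with multiplicity) over the nontrivial zeros of `ζ` whose ordinate is not in `J`
and has distance at most `h * D` from `t` -/
noncomputable def outside (h D t : ℝ) (J : Set ℝ) : ℝ :=
  ∑ᶠ s ∈ {s : ℂ | riemannZeta s = 0 ∧ 0 < s.re ∧ s.re < 1 ∧ (s.im ∉ J ∧ |s.im - t| ≤ h * D)},
    (zmult s : ℝ) * weight h D (s.im - t)

/-- Number rigidity of the zeros of the zeta function on the Riemann hypothesis: let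
`2 ≤ D`, `h ≥ log D / log T` and `h D ≤ 1`. For all `t ∈ [T, 2T]` outside a set of measure at most
`C T D ^ (-c)` and for EVERY set `J ⊆ [t - h, t + h]`, the number of zeros with ordinate in `J` is
the integer nearest to the deterministic quantity `h (D - 1) log T / (π log D)` minus the weighted
sum over the zeros outside `J` (at distance at most `h D` from `t`), with error `< 1/4`. -/
theorem result (RH : RiemannHypothesis) :
    ∃ c C T₀ : ℝ, 0 < c ∧ 0 < C ∧ 0 < T₀ ∧ ∀ T : ℝ, T₀ ≤ T → ∀ h D : ℝ, 2 ≤ D →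
      Real.log D ≤ h * Real.log T → h * D ≤ 1 →
      ∃ E : Set ℝ, MeasurableSet E ∧ volume E ≤ ENNReal.ofReal (C * T * D ^ (-c)) ∧
        ∀ t ∈ Set.Icc T (2 * T) \ E, ∀ J ⊆ Set.Icc (t - h) (t + h),
          |(count J : ℝ) -
            (h * (D - 1) * Real.log T / (Real.pi * Real.log D) - outside h D t J)| < 1 / 4 := by
  have hRHs : SP.RHs := by
    intro s h1 h2 h0
    apply RH s h0
    · rintro ⟨k, hk⟩
      have := congrArg Complex.re hk
      simp at this
      have hk0 : (0 : ℝ) ≤ k := Nat.cast_nonneg k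
      linarith
    · intro h; rw [h] at h2; simp at h2
  obtain ⟨c, C, T0, hc, hC, hT0, H⟩ := Num.final hRHs
  exact ⟨c, C, T0, hc, hC, by linarith, H⟩

end Pool.Agent.Results.MP_7eacff_nt.NumberRigidity
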