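import Pool.Agent.W198.TC.Main
import Pool.Agent.W376.TC.Gaps

/-!
Assume the Riemann hypothesis.  Upper bound for the proportion of the unfolded gaps of the zeta
zeros that are at most `a`, for small `a`: as `a → 0` the bound tends to `0.15296`, whereas the
best bound that follows from the pair correlation function (Montgomery's theorem for the form factor
on `[-1, 1]` and positive definite majorants; Chirre, Goncalves and de Laat) tends to `0.1604`.

Idea of the proof.  Let `W(γ)` be a sum `∑ p-hat (γ' - γ)` over the zeros `γ'` near the zero `γ`,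
where `p-hat ≥ 0` is a positive kernel with Fourier transform supported in `[-1, 1]`, split into
several two-sided windows.  The explicit formula turns each window into a short Dirichlet polynomial,
and the mean square of `W(γ) - E` over the zeros `γ` (a part of the triple correlation) can be
computed because the products of two of the polynomials have length at most `T ^ (1 - ε)`.  So the
variance of `W` is at most `0.1208`; a zero with another zero nearby has `W ≥ 2 p-hat (0) - …`,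
which is far from the mean `1.037`, and a quadratic inequality bounds the number of such zeros.
-/

open Filter

namespace Pool.Agent.Results.MP_7eacff_nt.SmallGapProportion

/-- multiplicity of `s` as a zero of the Riemann zeta function (order of vanishing at `s`) -/
noncomputable def zmult (s : ℂ) : ℕ := analyticOrderNatAt riemannZeta s

/-- the number of nontrivial zeros of `ζ` with ordinate in `(0, t]`, with multiplicity -/
noncomputable def NZ (t : ℝ) : ℕ :=
  ∑ᶠ s ∈ {s : ℂ | riemannZeta s = 0 ∧ 0 < s.re ∧ s.re < 1 ∧ 0 < s.im ∧ s.im ≤ t}, zmult s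

/-- for `n ≥ 1`: the `n`-th positive ordinate `γ n` of a nontrivial zero of `ζ`, the ordinates being
listed in nondecreasing order and repeated according to multiplicity -/
noncomputable def γ (n : ℕ) : ℝ := sInf {t : ℝ | n ≤ NZ t}

/-- the unfolded gaps `δ_n = (γ_{n+1} - γ_n) / 2π * log (γ_n / 2π)` -/
noncomputable def δ (n : ℕ) : ℝ :=
  (γ (n + 1) - γ n) / (2 * Real.pi) * Real.log (γ n / (2 * Real.pi))

/-- `G a = (53/60 - 79 π² a² / 600)²` -/
noncomputable def G (a : ℝ) : ℝ := (53 / 60 - 79 / 600 * Real.pi ^ 2 * a ^ 2) ^ 2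

/-- `D a = 2 G a - 1.037` -/
noncomputable def D (a : ℝ) : ℝ := 2 * G a - 1037 / 1000

/-- the bound `B a = (1/2) v / (v + (D a)²)` with `v = 0.1208` -/
noncomputable def B (a : ℝ) : ℝ := 1 / 2 * (151 / 1250 / (151 / 1250 + D a ^ 2))

theorem general (RH : RiemannHypothesis) (a : ℝ) (ha : 0 ≤ a)
    (h1 : 0 < 53 / 60 - 79 / 600 * Real.pi ^ 2 * a ^ 2) (h2 : 1 / 8 ≤ D a) (ε : ℝ) (hε : 0 < ε) :
    ∀ᶠ N : ℕ in atTop, ({n : ℕ | 1 ≤ n ∧ n ≤ N ∧ δ n ≤ a}.ncard : ℝ) ≤ (B a + ε) * N := by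
  have hpi := Real.pi_pos
  -- functions of `η`
  set X : ℝ → ℝ := fun η => 2 * Real.pi * a / (1 - η) with hX
  have hX0 : X 0 = 2 * Real.pi * a := by simp [hX]
  have hXc : ContinuousAt X 0 := by
    rw [hX]
    have : (1 : ℝ) - 0 ≠ 0 := by norm_num
    fun_prop (disch := assumption)
  have hQ0 : TC.Qx (X 0) = G a := by
    rw [hX0]
    unfold TC.Qx G
    ring
  have hQc : ContinuousAt (fun η => TC.Qx (X η)) 0 := by
    unfold TC.Qx
    exact (continuousAt_const.sub (continuousAt_const.mul (hXc.pow 2))).pow 2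
  have hv : TC.vv = 151 / 1250 := by
    unfold TC.vv
    norm_num
  have hE : TC.EE = 1037 / 1000 := rfl
  have hv0 : 0 < TC.vv := TC.vv_pos
  have e1 : ∀ᶠ η in nhdsWithin (0 : ℝ) (Set.Ioi 0), 0 < 53 / 60 - 79 / 2400 * X η ^ 2 := by
    apply nhdsWithin_le_nhds
    have hc : ContinuousAt (fun η => 53 / 60 - 79 / 2400 * X η ^ 2) 0 :=
      continuousAt_const.sub (continuousAt_const.mul (hXc.pow 2))
    apply hc.eventually (lt_mem_nhds _)
    show 0 < 53 / 60 - 79 / 2400 * X 0 ^ 2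
    rw [hX0]
    have e : 53 / 60 - 79 / 2400 * (2 * Real.pi * a) ^ 2 =
        53 / 60 - 79 / 600 * Real.pi ^ 2 * a ^ 2 := by ring
    rw [e]
    exact h1
  have e2 : ∀ᶠ η in nhdsWithin (0 : ℝ) (Set.Ioi 0), TC.vv / TC.EE < 2 * TC.Qx (X η) - TC.EE := by
    apply nhdsWithin_le_nhds
    have hc : ContinuousAt (fun η => 2 * TC.Qx (X η) - TC.EE) 0 :=
      (continuousAt_const.mul hQc).sub continuousAt_const
    apply hc.eventually (lt_mem_nhds _)
    show TC.vv / TC.EE < 2 * TC.Qx (X 0) - TC.EE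
    rw [hQ0, hv, hE]
    unfold D at h2
    refine lt_of_lt_of_le ?_ h2
    norm_num
  have e3 : ∀ᶠ η in nhdsWithin (0 : ℝ) (Set.Ioi 0),
      TC.vv / (TC.vv + (2 * TC.Qx (X η) - TC.EE) ^ 2) < 2 * B a + ε / 2 := by
    apply nhdsWithin_le_nhds
    have hc : ContinuousAt (fun η => TC.vv / (TC.vv + (2 * TC.Qx (X η) - TC.EE) ^ 2)) 0 := by
      apply ContinuousAt.div continuousAt_const
      · exact continuousAt_const.add (((continuousAt_const.mul hQc).sub continuousAt_const).pow 2)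
      · positivity
    apply hc.eventually (gt_mem_nhds _)
    show TC.vv / (TC.vv + (2 * TC.Qx (X 0) - TC.EE) ^ 2) < 2 * B a + ε / 2
    have e : TC.vv / (TC.vv + (2 * TC.Qx (X 0) - TC.EE) ^ 2) = 2 * B a := by
      rw [hQ0, hv, hE]
      unfold B D
      ring
    rw [e]
    linarith
  have e4 : ∀ᶠ η in nhdsWithin (0 : ℝ) (Set.Ioi 0), 0 < η := self_mem_nhdsWithin
  have e5 : ∀ᶠ η in nhdsWithin (0 : ℝ) (Set.Ioi 0), η < 1 :=
    nhdsWithin_le_nhds (gt_mem_nhds one_pos)
  obtain ⟨η, ⟨⟨⟨k1, k2⟩, k3⟩, k4⟩, k5⟩ := ((((e1.and e2).and e3).and e4).and e5).exists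
  have hXη : 0 ≤ X η := by
    show 0 ≤ 2 * Real.pi * a / (1 - η)
    have : 0 < 1 - η := by linarith
    positivity
  have hcp := TC.close_pairs RH (X η) hXη k1 k2.le (ε / 2) (by positivity)
  have hm := TC.Gaps.gaps_main RH (X η)
    (TC.vv / (TC.vv + (2 * TC.Qx (X η) - TC.EE) ^ 2) + ε / 2) hXη (by positivity) hcp a η k4 k5
    (by
      show 2 * Real.pi * a ≤ (1 - η) * (2 * Real.pi * a / (1 - η))
      rw [mul_div_cancel₀ _ (by linarith : (1 - η) ≠ 0)]) (ε / 4) (by positivity)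
  filter_upwards [hm] with N hN
  refine le_trans hN ?_
  apply mul_le_mul_of_nonneg_right _ (Nat.cast_nonneg _)
  linarith

lemma numerics (a q : ℝ) (hq : 79 / 600 * (315 / 100) ^ 2 * a ^ 2 ≤ q)
    (hq1 : q ≤ 1 / 100) : 0 < 53 / 60 - 79 / 600 * Real.pi ^ 2 * a ^ 2 ∧
      2 * (53 / 60 - q) ^ 2 - 1037 / 1000 ≤ D a := by
  have h3 : Real.pi ≤ 315 / 100 := by
    have := Real.pi_lt_d2
    norm_num at this ⊢
    exact this.le
  have h4 : 79 / 600 * Real.pi ^ 2 * a ^ 2 ≤ q := by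
    refine le_trans ?_ hq
    have := Real.pi_pos
    gcongr
  constructor
  · linarith
  · unfold D G
    have h5 : (53 / 60 - q) ^ 2 ≤ (53 / 60 - 79 / 600 * Real.pi ^ 2 * a ^ 2) ^ 2 := by
      apply pow_le_pow_left₀ (by linarith)
      linarith
    linarith

/-- On the Riemann hypothesis: for every `a ≥ 0` with `D a ≥ 1/8` (and `79 π² a² / 600 < 53/60`) the
proportion of the unfolded gaps `δ_n` that are at most `a` is asymptotically at most
`B a = (1/2) v / (v + (D a)²)`, `v = 0.1208`.  In particular at most `15.3 %` of the gaps are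
`≤ 1/200` and at most `15.8 %` are `≤ 1/20`. -/
theorem result (RH : RiemannHypothesis) :
    (∀ a : ℝ, 0 ≤ a → 0 < 53 / 60 - 79 / 600 * Real.pi ^ 2 * a ^ 2 → 1 / 8 ≤ D a →
      ∀ ε : ℝ, 0 < ε → ∀ᶠ N : ℕ in atTop,
        ({n : ℕ | 1 ≤ n ∧ n ≤ N ∧ δ n ≤ a}.ncard : ℝ) ≤ (B a + ε) * N) ∧
    (∀ᶠ N : ℕ in atTop,
      ({n : ℕ | 1 ≤ n ∧ n ≤ N ∧ δ n ≤ 1 / 200}.ncard : ℝ) ≤ 0.153 * N) ∧
    (∀ᶠ N : ℕ in atTop,
      ({n : ℕ | 1 ≤ n ∧ n ≤ N ∧ δ n ≤ 1 / 20}.ncard : ℝ) ≤ 0.158 * N) := by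
  have key : ∀ a q b : ℝ, 0 ≤ a → 79 / 600 * (315 / 100) ^ 2 * a ^ 2 ≤ q → q ≤ 1 / 100 →
      1 / 2 * (151 / 1250 / (151 / 1250 + (2 * (53 / 60 - q) ^ 2 - 1037 / 1000) ^ 2)) < b →
      ∀ᶠ N : ℕ in atTop, ({n : ℕ | 1 ≤ n ∧ n ≤ N ∧ δ n ≤ a}.ncard : ℝ) ≤ b * N := by
    intro a q b ha hq hq1 hb
    obtain ⟨h1, h2⟩ := numerics a q hq hq1
    have h0 : 1 / 4 ≤ 2 * (53 / 60 - q) ^ 2 - 1037 / 1000 := by nlinarith
    have hB : B a < b := by
      refine lt_of_le_of_lt ?_ hb
      unfold B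
      have h3 : (2 * (53 / 60 - q) ^ 2 - 1037 / 1000) ^ 2 ≤ D a ^ 2 :=
        pow_le_pow_left₀ (by linarith) h2 2
      gcongr
    have h4 := general RH a ha h1 (by linarith) (b - B a) (by linarith)
    filter_upwards [h4] with N hN
    refine le_trans hN (le_of_eq ?_)
    ring
  refine ⟨fun a ha h1 h2 ε hε => general RH a ha h1 h2 ε hε, ?_, ?_⟩
  · exact key (1 / 200) (34 / 1000000) 0.153 (by norm_num) (by norm_num) (by norm_num) (by norm_num)
  · exact key (1 / 20) (33 / 10000) 0.158 (by norm_num) (by norm_num) (by norm_num) (by norm_num)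

end Pool.Agent.Results.MP_7eacff_nt.SmallGapProportion
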