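import Pool.Agent.W202.AH.Final

/-!
Assume the Riemann hypothesis.  Sums of `r` consecutive unfolded gaps of the zeta zeros do not
concentrate on a coset `a + s ℤ`, for every `s > 2/3` and every `r ≥ 1`, uniformly in `a`.

Idea of the proof.  Put `θ = 1/s < 3/2` and `z_n = e(θ y_n)`, `y_n` the normalised ordinates.  If
almost all the sums of `r` consecutive gaps were close to `a + s ℤ`, then `z_{n+r} ≈ e(θ a) z_n`
for almost all `n`, so the sums of at most `L` consecutive `z_n` would locally be within `κ √L` of a
linear function, `κ` fixed and small and `L` large.  We show that this is impossible for any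
`θ < 3/2`: a decomposition of `z` into a slowly varying part, a small part and a telescoping part
bounds the mean square of `∑ z_n e(β y_n)` over `|β - 2/L| ≤ 1/L` by a small multiple of `1/L` times
the length (Plancherel's theorem for the telescoping part, positive definiteness of the kernel and
Montgomery's theorem near the frequency `0` for the slowly varying part), while Montgomery's theorem
(`θ < 1`), or the lower bound `3/2 - α` for the form factor on `(1, 3/2)`, shows that it is at least
a constant times `1/L` times the length.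
-/

open Filter

namespace Pool.Agent.Results.MP_7eacff_nt.SumsAvoidCosets

/-- multiplicity of `s` as a zero of the Riemann zeta function (order of vanishing at `s`) -/
noncomputable def zmult (s : ℂ) : ℕ := analyticOrderNatAt riemannZeta s

/-- the number of nontrivial zeros of `ζ` with ordinate in `(0, t]`, with multiplicity -/
noncomputable def NZ (t : ℝ) : ℕ :=
  ∑ᶠ s ∈ {s : ℂ | riemannZeta s = 0 ∧ 0 < s.re ∧ s.re < 1 ∧ 0 < s.im ∧ s.im ≤ t}, zmult s

/-- for `n ≥ 1`: the `n`-th positive ordinate `γ n` of a nontrivial zero of `ζ`, the ordinates being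
listed in nondecreasing order and repeated according to multiplicity -/
noncomputable def γ (n : ℕ) : ℝ := sInf {t : ℝ | n ≤ NZ t}

/-- the unfolded gaps `δ_n = (γ_{n+1} - γ_n) / 2π * log (γ_n / 2π)` -/
noncomputable def δ (n : ℕ) : ℝ :=
  (γ (n + 1) - γ n) / (2 * Real.pi) * Real.log (γ n / (2 * Real.pi))

/-- On the Riemann hypothesis: for every `s > 2/3` and every `r ≥ 1` there is `ε > 0` such that for
all large `N` and all real `a` at least `ε N` of the indices `1 ≤ n ≤ N` are such that
`δ_n + δ_{n+1} + … + δ_{n+r-1}` has distance at least `ε` from every `a + s k`, `k` an integer. -/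
theorem result (RH : RiemannHypothesis) (s : ℝ) (hs : 2 / 3 < s) (r : ℕ) (hr : 1 ≤ r) :
    ∃ ε : ℝ, 0 < ε ∧ ∀ᶠ N : ℕ in atTop, ∀ a : ℝ,
      ε * N ≤ ({n : ℕ | 1 ≤ n ∧ n ≤ N ∧
        ∀ k : ℤ, ε ≤ |∑ i ∈ Finset.range r, δ (n + i) - (a + s * k)|}.ncard : ℝ) := by
  have hdel : ∀ n, H177.Lat.del2 n = δ n := fun n => rfl
  have hs0 : 0 < s := by linarith
  have hθ : 1 / s < 3 / 2 := by
    rw [div_lt_iff₀ hs0]; linarith
  obtain ⟨ε, hε, h⟩ := W202.AH.coset_sums RH (1 / s) (by positivity) hθ r hr
  refine ⟨ε, hε, ?_⟩
  filter_upwards [h] with N hN a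
  have h1 := hN a
  have e : ∀ (n : ℕ) (k : ℤ), ∑ i ∈ Finset.range (n + r), H177.Lat.del2 i -
      ∑ i ∈ Finset.range n, H177.Lat.del2 i - a - k / (1 / s) =
      ∑ i ∈ Finset.range r, δ (n + i) - (a + s * k) := by
    intro n k
    rw [Finset.sum_range_add, div_div_eq_mul_div, div_one]
    simp only [hdel]
    ring
  simp only [e] at h1
  exact h1

end Pool.Agent.Results.MP_7eacff_nt.SumsAvoidCosets
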